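import Mathlib.Algebra.Category.Grp.Abelian
import Mathlib.Analysis.InnerProductSpace.PiL2
import Mathlib.Combinatorics.Quiver.ReflQuiver
import Mathlib.AlgebraicTopology.SingularHomology.Basic
import Mathlib.Combinatorics.SimpleGraph.Finite
import Mathlib.Order.CompletePartialOrder

/-! Definitions for the min-max eigenvalues of the graph p-Laplacian. -/

open CategoryTheory AlgebraicTopology

noncomputable section

namespace Pool.Agent.MP_76285e_an

open Classical in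
/-- The Rayleigh quotient `F_p`; each edge `{i, j}` is counted once, as the pair with `i < j`. -/
def rayleigh {n : ℕ} (G : SimpleGraph (Fin n)) (p : ℝ) (x : Fin n → ℝ) : ℝ :=
  (∑ i, ∑ j, if i < j ∧ G.Adj i j then |x i - x j| ^ p else 0) /
    ∑ i, (G.degree i : ℝ) * |x i| ^ p

/-- There is an odd continuous map from `S` to `T`. -/
def HasOddMap {E E' : Type} [TopologicalSpace E] [Neg E] [TopologicalSpace E'] [Neg E']
    (S : Set E) (T : Set E') : Prop :=
  ∃ f : E → E', ContinuousOn f S ∧ (∀ x ∈ S, f x ∈ T) ∧ ∀ x ∈ S, f (-x) = -f x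

/-- The unit sphere of dimension `k - 1` (empty for `k = 0`). -/
def sphere (k : ℕ) : Set (EuclideanSpace ℝ (Fin k)) := {x | ‖x‖ = 1}

/-- Krasnoselskii genus. -/
def genus {n : ℕ} (S : Set (Fin n → ℝ)) : ℕ∞ := ⨅ (k : ℕ) (_ : HasOddMap S (sphere k)), (k : ℕ∞)

/-- Coindex. -/
def coindex {n : ℕ} (S : Set (Fin n → ℝ)) : ℕ∞ := ⨆ (k : ℕ) (_ : HasOddMap (sphere k) S), (k : ℕ∞)

/-- The min-max value attached to an index `γ`. -/
def minmax {n : ℕ} (γ : Set (Fin n → ℝ) → ℕ∞) (F : (Fin n → ℝ) → ℝ) (k : ℕ) : ℝ :=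
  sInf {c | ∃ S : Set (Fin n → ℝ), IsCompact S ∧ 0 ∉ S ∧ (∀ x ∈ S, -x ∈ S) ∧ (k : ℕ∞) ≤ γ S ∧
    c = sSup (F '' S)}

/-- Sublevel set in the unit sphere of the sup norm. -/
def sublevel {n : ℕ} (F : (Fin n → ℝ) → ℝ) (t : ℝ) : Set (Fin n → ℝ) := {x | ‖x‖ = 1 ∧ F x ≤ t}

lemma sublevel_mono {n : ℕ} (F : (Fin n → ℝ) → ℝ) {s t : ℝ} (h : s < t) :
    sublevel F s ⊆ sublevel F t := fun _ hx => ⟨hx.1, hx.2.trans h.le⟩

/-- The inclusion of sublevel sets as a morphism of topological spaces. -/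
def sublevelIncl {n : ℕ} (F : (Fin n → ℝ) → ℝ) {s t : ℝ} (h : s < t) :
    TopCat.of (sublevel F s) ⟶ TopCat.of (sublevel F t) :=
  TopCat.ofHom ⟨Set.inclusion (sublevel_mono F h), continuous_inclusion _⟩

/-- Homological regular values (integral singular homology). -/
def IsHomRegular {n : ℕ} (F : (Fin n → ℝ) → ℝ) (c : ℝ) : Prop :=
  ∃ ε > 0, ∀ (s t : ℝ) (h : s < t), c - ε < s → t < c + ε → ∀ m : ℕ,
    IsIso (((singularHomologyFunctor AddCommGrpCat m).obj (AddCommGrpCat.of ℤ)).map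
      (sublevelIncl F h))

end Pool.Agent.MP_76285e_an
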