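import Mathlib.RingTheory.Flat.TorsionFree
import Mathlib.Analysis.SpecialFunctions.Pow.Continuity
import Mathlib.RingTheory.TotallySplit
import Mathlib.RingTheory.Etale.Weakly
import Pool.Agent.MP_76285e_an.Defs
import Pool.Agent.Lib.helper80.Suspension

open Set Topology Metric unitInterval CategoryTheory Pool.Agent.H80

noncomputable section

namespace Pool.Agent.MP_76285e_an

variable {n : ℕ} (G : SimpleGraph (Fin n)) (p : ℝ)

open Classical in
def num (x : Fin n → ℝ) : ℝ := ∑ i, ∑ j, if i < j ∧ G.Adj i j then |x i - x j| ^ p else 0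

open Classical in
def den (x : Fin n → ℝ) : ℝ := ∑ i, (G.degree i : ℝ) * |x i| ^ p

lemma rayleigh_eq (x : Fin n → ℝ) : rayleigh G p x = num G p x / den G p x := rfl

lemma num_nonneg (x : Fin n → ℝ) : 0 ≤ num G p x :=
  Finset.sum_nonneg fun _ _ => Finset.sum_nonneg fun _ _ => by
    split_ifs <;> positivity

lemma den_nonneg (x : Fin n → ℝ) : 0 ≤ den G p x :=
  Finset.sum_nonneg fun _ _ => by positivity

lemma rayleigh_nonneg (x : Fin n → ℝ) : 0 ≤ rayleigh G p x :=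
  div_nonneg (num_nonneg G p x) (den_nonneg G p x)

lemma num_smul (c : ℝ) (x : Fin n → ℝ) : num G p (c • x) = |c| ^ p * num G p x := by
  simp only [num, Finset.mul_sum]
  refine Finset.sum_congr rfl fun i _ => Finset.sum_congr rfl fun j _ => ?_
  split_ifs
  · rw [Pi.smul_apply, Pi.smul_apply, smul_eq_mul, smul_eq_mul, ← mul_sub, abs_mul,
      Real.mul_rpow (abs_nonneg _) (abs_nonneg _)]
  · simp

lemma den_smul (c : ℝ) (x : Fin n → ℝ) : den G p (c • x) = |c| ^ p * den G p x := by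
  simp only [den, Finset.mul_sum]
  refine Finset.sum_congr rfl fun i _ => ?_
  rw [Pi.smul_apply, smul_eq_mul, abs_mul, Real.mul_rpow (abs_nonneg _) (abs_nonneg _)]
  ring

lemma rayleigh_smul {c : ℝ} (hc : 0 < c) (x : Fin n → ℝ) :
    rayleigh G p (c • x) = rayleigh G p x := by
  rw [rayleigh_eq, rayleigh_eq, num_smul, den_smul, mul_div_mul_left]
  positivity

variable {G p}

lemma continuous_num (hp : 1 ≤ p) : Continuous (num G p) := by
  refine continuous_finsetSum _ fun i _ => continuous_finsetSum _ fun j _ => ?_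
  split_ifs
  · exact Continuous.rpow_const (by fun_prop) fun _ => Or.inr (by linarith)
  · exact continuous_const

lemma continuous_den (hp : 1 ≤ p) : Continuous (den G p) :=
  continuous_finsetSum _ fun i _ =>
    continuous_const.mul (Continuous.rpow_const (by fun_prop) fun _ => Or.inr (by linarith))

lemma den_pos (hG : ∀ i, ∃ j, G.Adj i j) {x : Fin n → ℝ} (hx : x ≠ 0) : 0 < den G p x := by
  classical
  obtain ⟨i, hi⟩ := Function.ne_iff.1 hx
  refine Finset.sum_pos' (fun _ _ => by positivity) ⟨i, Finset.mem_univ _, ?_⟩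
  refine mul_pos ?_ (Real.rpow_pos_of_pos (abs_pos.2 hi) _)
  exact_mod_cast (G.degree_pos_iff_exists_adj i).2 (hG i)

lemma num_const (hp : 1 ≤ p) (c : ℝ) : num G p (fun _ => c) = 0 := by
  simp [num, Real.zero_rpow (show p ≠ 0 by linarith)]

lemma den_zero (hp : 1 ≤ p) : den G p 0 = 0 := by
  simp [den, Real.zero_rpow (show p ≠ 0 by linarith)]

variable (G p) in
def X (t : ℝ) : Set (Fin n → ℝ) := {x | num G p x < t * den G p x}

lemma zero_notMem_X (hp : 1 ≤ p) (t : ℝ) : (0 : Fin n → ℝ) ∉ X G p t := by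
  intro h
  simp only [X, mem_ofPred_eq, den_zero hp, mul_zero] at h
  exact absurd h (num_nonneg G p 0).not_gt

lemma mem_X_iff (hG : ∀ i, ∃ j, G.Adj i j) (hp : 1 ≤ p) {t : ℝ} {x : Fin n → ℝ} :
    x ∈ X G p t ↔ x ≠ 0 ∧ rayleigh G p x < t := by
  by_cases hx : x = 0
  · simp [hx, zero_notMem_X hp]
  · rw [rayleigh_eq, div_lt_iff₀ (den_pos hG hx)]
    simp [hx, X]

lemma isOpen_X (hp : 1 ≤ p) (t : ℝ) : IsOpen (X G p t) :=
  isOpen_lt (continuous_num hp) (continuous_const.mul (continuous_den hp))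

lemma neg_mem_X {t : ℝ} {x : Fin n → ℝ} (h : x ∈ X G p t) : -x ∈ X G p t := by
  have h1 := num_smul G p (-1) x
  have h2 := den_smul G p (-1) x
  simp only [neg_smul, one_smul, abs_neg, abs_one, Real.one_rpow, one_mul] at h1 h2
  simpa only [X, mem_ofPred_eq, h1, h2] using h

lemma X_mono {s t : ℝ} (h : s ≤ t) : X G p s ⊆ X G p t := fun x hx =>
  lt_of_lt_of_le hx (mul_le_mul_of_nonneg_right h (den_nonneg G p x))

def sh (s u : ℝ) : ℝ := max u 0 - s * max (-u) 0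

def shr (s : ℝ) (x : Fin n → ℝ) : Fin n → ℝ := fun i => sh s (x i)

lemma sh_of_nonneg (s : ℝ) {u : ℝ} (h : 0 ≤ u) : sh s u = u := by simp [sh, h]

lemma sh_of_nonpos (s : ℝ) {u : ℝ} (h : u ≤ 0) : sh s u = s * u := by simp [sh, h]

lemma sh_one (u : ℝ) : sh 1 u = u := by
  rcases le_total 0 u with h | h
  · exact sh_of_nonneg _ h
  · rw [sh_of_nonpos _ h, one_mul]

lemma sh_sh {s : ℝ} (hs : 0 ≤ s) (r u : ℝ) : sh r (sh s u) = sh (r * s) u := by
  rcases le_total 0 u with h | h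
  · simp only [sh_of_nonneg _ h]
  · rw [sh_of_nonpos _ h, sh_of_nonpos _ h, sh_of_nonpos _ (mul_nonpos_of_nonneg_of_nonpos hs h),
      mul_assoc]

lemma shr_one (x : Fin n → ℝ) : shr 1 x = x := funext fun _ => sh_one _

@[fun_prop]
lemma Continuous.shr {Y : Type*} [TopologicalSpace Y] {s : Y → ℝ} {x : Y → Fin n → ℝ}
    (hs : Continuous s) (hx : Continuous x) : Continuous fun y => shr (s y) (x y) := by
  refine continuous_pi fun i => ?_
  simp only [MP_76285e_an.shr, sh]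
  fun_prop

variable (G p) in
def U (t : ℝ) : Set (Fin n → ℝ) := {x | ∀ s : I, shr s x ∈ X G p t}

lemma U_subset (t : ℝ) : U G p t ⊆ X G p t := fun x hx => by
  simpa [shr_one] using hx 1

lemma isOpen_U (hp : 1 ≤ p) (t : ℝ) : IsOpen (U G p t) := by
  let c : C(Fin n → ℝ, C(I, Fin n → ℝ)) :=
    ContinuousMap.curry ⟨fun q : (Fin n → ℝ) × I => shr q.2 q.1, by fun_prop⟩
  have := (ContinuousMap.isOpen_setOfPred_mapsTo isCompact_univ
    (isOpen_X (G := G) hp t)).preimage c.continuous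
  convert this using 1
  ext x
  exact ⟨fun h s _ => h s, fun h s => h (mem_univ s)⟩

lemma rpow_conv (hp : 1 ≤ p) {a b s : ℝ} (ha : 0 ≤ a) (hb : 0 ≤ b) (hs : 0 ≤ s) (hab : 0 < a + b) :
    (a + s * b) ^ p ≤ (a / (a + b) + b / (a + b) * s ^ p) * (a + b) ^ p := by
  have := (convexOn_rpow hp).2 (x := a + b) (y := s * (a + b)) hab.le (mul_nonneg hs hab.le)
    (div_nonneg ha hab.le) (div_nonneg hb hab.le) (by field_simp)
  simp only [smul_eq_mul] at this
  rw [Real.mul_rpow hs hab.le] at this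
  have e1 : a / (a + b) * (a + b) + b / (a + b) * (s * (a + b)) = a + s * b := by field_simp
  rw [e1] at this
  refine this.trans (le_of_eq ?_)
  ring

lemma key_ineq (hp : 1 ≤ p) {a b s r A B : ℝ} (ha : 0 ≤ a) (hb : 0 ≤ b) (hs : 0 ≤ s) (hr : 0 ≤ r)
    (hA : 0 ≤ A) (hB : 0 ≤ B) (h1 : A + B * r ^ p = 1) (h2 : A * s ^ p + B = 1) :
    A * (a + s * b) ^ p + B * (b + r * a) ^ p ≤ (a + b) ^ p := by
  rcases (add_nonneg ha hb).lt_or_eq with hab | hab
  · have e1 := rpow_conv hp ha hb hs hab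
    have e2 := rpow_conv hp hb ha hr (by linarith)
    rw [add_comm b a] at e2
    refine (add_le_add (mul_le_mul_of_nonneg_left e1 hA) (mul_le_mul_of_nonneg_left e2 hB)).trans
      (le_of_eq ?_)
    have : a / (a + b) * (A + B * r ^ p) + b / (a + b) * (A * s ^ p + B) = 1 := by
      rw [h1, h2]; field_simp
    linear_combination (a + b) ^ p * this
  · obtain rfl : a = 0 := by linarith
    obtain rfl : b = 0 := by linarith
    simp [Real.zero_rpow (show p ≠ 0 by linarith)]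

lemma edge_ineq (hp : 1 ≤ p) {s r A B : ℝ} (hs : 0 ≤ s) (hr : 0 ≤ r)
    (hA : 0 ≤ A) (hB : 0 ≤ B) (h1 : A + B * r ^ p = 1) (h2 : A * s ^ p + B = 1) (u v : ℝ) :
    A * |sh s u - sh s v| ^ p + B * |sh r (-u) - sh r (-v)| ^ p ≤ |u - v| ^ p := by
  wlog h : v ≤ u generalizing u v
  · rw [abs_sub_comm, abs_sub_comm (sh r _), abs_sub_comm u]
    exact this v u (le_of_not_ge h)
  have ha : 0 ≤ max u 0 - max v 0 := sub_nonneg.2 (max_le_max h le_rfl)
  have hb : 0 ≤ max (-v) 0 - max (-u) 0 := sub_nonneg.2 (max_le_max (by linarith) le_rfl)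
  have := key_ineq hp ha hb hs hr hA hB h1 h2
  have e0 : u - v = max u 0 - max v 0 + (max (-v) 0 - max (-u) 0) := by
    have h1 := max_zero_sub_max_neg_zero_eq_self u
    have h2 := max_zero_sub_max_neg_zero_eq_self v
    linarith
  have e1 : sh s u - sh s v = max u 0 - max v 0 + s * (max (-v) 0 - max (-u) 0) := by
    simp only [sh]; ring
  have e2 : sh r (-u) - sh r (-v) = -(max (-v) 0 - max (-u) 0 + r * (max u 0 - max v 0)) := by
    simp only [sh, neg_neg]; ring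
  rwa [e0, e1, e2, abs_neg, abs_of_nonneg (by positivity), abs_of_nonneg (by positivity),
    abs_of_nonneg (by positivity)]

lemma vertex_eq {s r A B : ℝ} (hs : 0 ≤ s) (hr : 0 ≤ r)
    (h1 : A + B * r ^ p = 1) (h2 : A * s ^ p + B = 1) (u : ℝ) :
    A * |sh s u| ^ p + B * |sh r (-u)| ^ p = |u| ^ p := by
  rcases le_total 0 u with h | h
  · rw [sh_of_nonneg _ h, sh_of_nonpos _ (neg_nonpos.2 h), abs_mul, abs_neg, abs_of_nonneg hr,
      Real.mul_rpow hr (abs_nonneg _)]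
    linear_combination |u| ^ p * h1
  · rw [sh_of_nonpos _ h, sh_of_nonneg _ (neg_nonneg.2 h), abs_mul, abs_neg, abs_of_nonneg hs,
      Real.mul_rpow hs (abs_nonneg _)]
    linear_combination |u| ^ p * h2

lemma U_union (hp : 1 ≤ p) (t : ℝ) : U G p t ∪ -U G p t = X G p t := by
  refine Subset.antisymm (union_subset (U_subset t) fun x hx => ?_) fun x hx => ?_
  · simpa using neg_mem_X (U_subset t hx)
  by_contra hc
  simp only [mem_union, mem_neg, U, mem_ofPred_eq, not_or, not_forall, X, not_lt] at hc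
  obtain ⟨⟨s, hs⟩, ⟨r, hr⟩⟩ := hc
  have hs1 : (s : ℝ) < 1 := lt_of_le_of_ne s.2.2 fun h => by
    rw [h, shr_one] at hs
    exact absurd hx hs.not_gt
  have hr1 : (r : ℝ) < 1 := lt_of_le_of_ne r.2.2 fun h => by
    rw [h, shr_one] at hr
    exact absurd (neg_mem_X hx) hr.not_gt
  have hμ : (s : ℝ) ^ p < 1 := Real.rpow_lt_one s.2.1 hs1 (by linarith)
  have hl : (r : ℝ) ^ p < 1 := Real.rpow_lt_one r.2.1 hr1 (by linarith)
  have hμ0 : 0 ≤ (s : ℝ) ^ p := Real.rpow_nonneg s.2.1 _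
  have hl0 : 0 ≤ (r : ℝ) ^ p := Real.rpow_nonneg r.2.1 _
  have hd : 0 < 1 - (r : ℝ) ^ p * (s : ℝ) ^ p := by nlinarith
  set A := (1 - (r : ℝ) ^ p) / (1 - (r : ℝ) ^ p * (s : ℝ) ^ p) with hA'
  set B := (1 - (s : ℝ) ^ p) / (1 - (r : ℝ) ^ p * (s : ℝ) ^ p) with hB'
  have hA : 0 ≤ A := div_nonneg (by linarith) hd.le
  have hB : 0 ≤ B := div_nonneg (by linarith) hd.le
  have h1 : A + B * (r : ℝ) ^ p = 1 := by rw [hA', hB']; field_simp; ring
  have h2 : A * (s : ℝ) ^ p + B = 1 := by rw [hA', hB']; field_simp; ring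
  have e1 : A * num G p (shr s x) + B * num G p (shr r (-x)) ≤ num G p x := by
    simp only [num, Finset.mul_sum, ← Finset.sum_add_distrib]
    refine Finset.sum_le_sum fun i _ => Finset.sum_le_sum fun j _ => ?_
    split_ifs
    · exact edge_ineq hp s.2.1 r.2.1 hA hB h1 h2 _ _
    · simp
  have e2 : A * den G p (shr s x) + B * den G p (shr r (-x)) = den G p x := by
    simp only [den, Finset.mul_sum, ← Finset.sum_add_distrib]
    refine Finset.sum_congr rfl fun i _ => ?_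
    rw [← vertex_eq s.2.1 r.2.1 h1 h2 (x i)]
    simp only [shr, Pi.neg_apply]
    ring
  have e3 : num G p x < t * den G p x := hx
  rw [← e2] at e3
  nlinarith [mul_le_mul_of_nonneg_left hs hA, mul_le_mul_of_nonneg_left hr hB]

lemma mem_U_of_nonneg {t : ℝ} {x : Fin n → ℝ} (h0 : ∀ i, 0 ≤ x i) (hx : x ∈ X G p t) :
    x ∈ U G p t := fun s => by
  rwa [show shr s x = x from funext fun i => sh_of_nonneg _ (h0 i)]

lemma one_mem_X (hG : ∀ i, ∃ j, G.Adj i j) (hp : 1 ≤ p) (hn : 0 < n) {t : ℝ} (ht : 0 < t) :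
    (fun _ => 1) ∈ X G p t := by
  show num G p _ < _
  rw [num_const hp]
  exact mul_pos ht (den_pos hG (Function.ne_iff.2 ⟨⟨0, hn⟩, by simp⟩))

def contr : C(I × (Fin n → ℝ), Fin n → ℝ) :=
  ⟨fun q => (1 - max 0 (2 * (q.1 : ℝ) - 1)) • shr (max 0 (1 - 2 * (q.1 : ℝ))) q.2 +
    fun _ => max 0 (2 * (q.1 : ℝ) - 1), by fun_prop⟩

lemma contr_apply (s : I) (x : Fin n → ℝ) : contr (s, x) =
    (1 - max 0 (2 * (s : ℝ) - 1)) • shr (max 0 (1 - 2 * (s : ℝ))) x +
      fun _ => max 0 (2 * (s : ℝ) - 1) := rfl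

lemma contr_zero (x : Fin n → ℝ) : contr (0, x) = x := by
  rw [contr_apply]
  ext i
  simp [shr_one]

lemma contr_one (x : Fin n → ℝ) : contr (1, x) = fun _ => 1 := by
  rw [contr_apply]
  ext i
  norm_num

lemma contr_mem (hG : ∀ i, ∃ j, G.Adj i j) (hp : 1 ≤ p) (hn : 0 < n) {t : ℝ} (ht : 0 < t) (s : I)
    (x : Fin n → ℝ) (hx : x ∈ U G p t) : contr (s, x) ∈ U G p t := by
  rw [contr_apply]
  rcases le_total (s : ℝ) (1 / 2) with h | h
  · rw [max_eq_left (by linarith), max_eq_right (by linarith)]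
    intro r
    have h1 : (0 : ℝ) ≤ 1 - 2 * s := by linarith
    have := hx (r * ⟨1 - 2 * s, h1, by linarith [s.2.1]⟩)
    convert this using 1
    ext i
    simp [shr, sh_sh h1]
  · rw [max_eq_right (by linarith), max_eq_left (by linarith)]
    set β : ℝ := 2 * s - 1 with hβ
    have hβ0 : 0 ≤ β := by linarith
    have hβ1 : β ≤ 1 := by linarith [s.2.2]
    have hy : shr 0 x ∈ X G p t := hx 0
    have hy0 : ∀ i, 0 ≤ shr 0 x i := fun i => by simp [shr, sh]
    generalize shr 0 x = y at hy hy0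
    have hpos : ∀ i, 0 ≤ (1 - β) * y i := fun i => mul_nonneg (by linarith) (hy0 i)
    refine mem_U_of_nonneg (fun i => add_nonneg (hpos i) hβ0) ?_
    rcases hβ1.lt_or_eq with hlt | heq
    swap
    · rw [heq, sub_self, zero_smul, zero_add]
      exact one_mem_X hG hp hn ht
    have e1 : num G p ((1 - β) • y + fun _ => β) = num G p ((1 - β) • y) := by
      simp [num]
    have e2 : den G p ((1 - β) • y) ≤ den G p ((1 - β) • y + fun _ => β) := by
      refine Finset.sum_le_sum fun i _ => mul_le_mul_of_nonneg_left ?_ (Nat.cast_nonneg _)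
      refine Real.rpow_le_rpow (abs_nonneg _) ?_ (by linarith)
      exact abs_le_abs_of_nonneg (hpos i) (le_add_of_nonneg_right hβ0)
    show num G p _ < _
    rw [e1]
    refine lt_of_lt_of_le ?_ (mul_le_mul_of_nonneg_left e2 ht.le)
    rw [num_smul, den_smul, mul_left_comm]
    exact mul_lt_mul_of_pos_left hy (Real.rpow_pos_of_pos (abs_pos.2 (by linarith)) _)

/-! ### from the sphere to the punctured space -/

def coneLevel (F : (Fin n → ℝ) → ℝ) (t : ℝ) : Set (Fin n → ℝ) := {x | x ≠ 0 ∧ F x ≤ t}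

lemma sub_cone (F : (Fin n → ℝ) → ℝ) (t : ℝ) : sublevel F t ⊆ coneLevel F t := fun x hx =>
  ⟨by rintro rfl; simpa using hx.1, hx.2⟩

lemma isIso_cone (t : ℝ) (m : ℕ) : IsIso ((SH m).map (incl (sub_cone (rayleigh G p) t))) := by
  have hpos : ∀ x : coneLevel (rayleigh G p) t, 0 < ‖x.1‖ := fun x => norm_pos_iff.2 x.2.1
  have hc : Continuous fun x : coneLevel (rayleigh G p) t => ‖x.1‖⁻¹ :=
    Continuous.inv₀ (by fun_prop) fun x => (hpos x).ne'
  refine isIso_of_homotopic _ (TopCat.ofHom ⟨fun x => ⟨‖x.1‖⁻¹ • x.1, by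
      rw [norm_smul, norm_inv, norm_norm, inv_mul_cancel₀ (hpos x).ne'], by
      rw [rayleigh_smul _ _ (inv_pos.2 (hpos x))]; exact x.2.2⟩,
    Continuous.subtype_mk (hc.smul continuous_subtype_val) _⟩) ?_ ?_ m
  · convert ContinuousMap.Homotopic.refl _ using 1
    ext1 x
    apply Subtype.ext
    show x.1 = ‖x.1‖⁻¹ • x.1
    rw [x.2.1]; simp
  · have hc' : ∀ q : I × coneLevel (rayleigh G p) t, 0 < (1 - (q.1 : ℝ)) * ‖q.2.1‖⁻¹ + q.1 := by
      rintro ⟨s, x⟩
      have h1 := inv_pos.2 (hpos x)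
      rcases s.2.1.lt_or_eq with h | h
      · exact add_pos_of_nonneg_of_pos (mul_nonneg (sub_nonneg.2 s.2.2) h1.le) h
      · simpa [← h] using hpos x
    refine ⟨⟨⟨fun q => ⟨((1 - (q.1 : ℝ)) * ‖q.2.1‖⁻¹ + q.1) • q.2.1,
      smul_ne_zero (hc' q).ne' q.2.2.1, by rw [rayleigh_smul _ _ (hc' q)]; exact q.2.2.2⟩, ?_⟩,
      fun x => Subtype.ext ?_, fun x => Subtype.ext ?_⟩⟩
    · have := hc.comp (continuous_snd (X := I))
      exact Continuous.subtype_mk (Continuous.smul (Continuous.add (Continuous.mul (by fun_prop)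
        this) (by fun_prop)) (by fun_prop)) _
    · show ((1 - ((0 : I) : ℝ)) * ‖x.1‖⁻¹ + (0 : I)) • x.1 = ‖x.1‖⁻¹ • x.1
      simp
    · show ((1 - ((1 : I) : ℝ)) * ‖x.1‖⁻¹ + (1 : I)) • x.1 = x.1
      simp

lemma acyc_cone {s t : ℝ} (h : s < t)
    (hi : ∀ m, IsIso ((SH m).map (sublevelIncl (rayleigh G p) h))) :
    Acyc (coneLevel (rayleigh G p) t) (coneLevel (rayleigh G p) s) := by
  have hsub : coneLevel (rayleigh G p) s ⊆ coneLevel (rayleigh G p) t :=
    fun x hx => ⟨hx.1, hx.2.trans h.le⟩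
  refine acyc_of_isIso hsub fun m => ?_
  have e : incl (sub_cone (rayleigh G p) s) ≫ incl hsub =
      sublevelIncl (rayleigh G p) h ≫ incl (sub_cone (rayleigh G p) t) := rfl
  have h1 := isIso_cone (G := G) (p := p) s m
  have h2 := isIso_cone (G := G) (p := p) t m
  have h3 := hi m
  have h4 : IsIso ((SH m).map (incl (sub_cone (rayleigh G p) s)) ≫ (SH m).map (incl hsub)) := by
    rw [← Functor.map_comp, e, Functor.map_comp]
    infer_instance
  exact IsIso.of_isIso_comp_left ((SH m).map (incl (sub_cone (rayleigh G p) s))) _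

lemma continuousOn_rayleigh (hG : ∀ i, ∃ j, G.Adj i j) (hp : 1 ≤ p) :
    ContinuousOn (rayleigh G p) {x | x ≠ 0} :=
  (continuous_num hp).continuousOn.div (continuous_den hp).continuousOn
    fun _ hx => (den_pos hG hx).ne'

lemma exists_level (hG : ∀ i, ∃ j, G.Adj i j) (hp : 1 ≤ p) {m : ℕ} {a a' : ℝ} (ha : a' < a)
    {z : Ch m (Fin n → ℝ)} (hz : z ∈ In m (X G p a)) :
    ∃ t, a' < t ∧ t < a ∧ z ∈ In m (coneLevel (rayleigh G p) t) := by
  have hK : IsCompact (⋃ τ ∈ z.support, range τ) :=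
    z.support.isCompact_biUnion fun τ _ => isCompact_range τ.continuous
  have hsub : (⋃ τ ∈ z.support, range τ) ⊆ X G p a := by
    intro x hx
    obtain ⟨τ, hτ, t, rfl⟩ := mem_iUnion₂.1 hx
    exact hz hτ t
  obtain ⟨t0, ht0, h⟩ : ∃ t0, t0 < a ∧ ∀ x ∈ ⋃ τ ∈ z.support, range τ, rayleigh G p x ≤ t0 := by
    rcases (⋃ τ ∈ z.support, range τ).eq_empty_or_nonempty with h | h
    · exact ⟨a', ha, by rw [h]; simp⟩
    · obtain ⟨x, hx, hx'⟩ := hK.exists_isMaxOn h ((continuousOn_rayleigh hG hp).mono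
        fun x hx => ((mem_X_iff hG hp).1 (hsub hx)).1)
      exact ⟨_, ((mem_X_iff hG hp).1 (hsub hx)).2, fun y hy => hx' hy⟩
  obtain ⟨t, h1, h2⟩ := exists_between (max_lt ha ht0)
  refine ⟨t, (le_max_left _ _).trans_lt h1, h2, fun τ hτ u => ?_⟩
  have hm : τ u ∈ ⋃ τ ∈ z.support, range τ := mem_iUnion₂.2 ⟨τ, hτ, u, rfl⟩
  exact ⟨((mem_X_iff hG hp).1 (hsub hm)).1, (h _ hm).trans ((le_max_right _ _).trans h1.le)⟩

lemma cone_subset_X (hG : ∀ i, ∃ j, G.Adj i j) (hp : 1 ≤ p) {t a : ℝ} (h : t < a) :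
    coneLevel (rayleigh G p) t ⊆ X G p a := fun _ hx =>
  (mem_X_iff hG hp).2 ⟨hx.1, hx.2.trans_lt h⟩

lemma acyc_X (hG : ∀ i, ∃ j, G.Adj i j) (hp : 1 ≤ p) {l a b : ℝ} (hl : l < a) (hab : a < b)
    (hi : ∀ (s t : ℝ) (h : s < t), l < s → t < b → ∀ m,
      IsIso ((SH m).map (sublevelIncl (rayleigh G p) h))) : Acyc (X G p b) (X G p a) := by
  intro m z hz hc
  obtain ⟨t, h1, h2, h3⟩ := exists_level hG hp hab hz
  obtain ⟨s, h4, h5, h6⟩ : ∃ s, l < s ∧ s < a ∧ Cyc m (coneLevel (rayleigh G p) s) z := by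
    cases m with
    | zero => obtain ⟨s, h4, h5⟩ := exists_between hl; exact ⟨s, h4, h5, trivial⟩
    | succ m => exact exists_level hG hp hl hc
  obtain ⟨w, hw, hw'⟩ := acyc_cone (h5.trans h1) (hi s t _ h4 h2) m z h3 h6
  exact ⟨w, In_mono (cone_subset_X hG hp h2) hw, In_mono (cone_subset_X hG hp h5) hw'⟩

theorem not_regular (hG : ∀ i, ∃ j, G.Adj i j) (hp : 1 ≤ p) (hn : 0 < n)
    (γ : Set (Fin n → ℝ) → ℕ∞) (hγ : ∀ S S', HasOddMap S S' → γ S ≤ γ S') (k : ℕ) :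
    ¬ IsHomRegular (rayleigh G p) (minmax γ (rayleigh G p) k) := by
  rintro ⟨ε, hε, hi⟩
  set c := minmax γ (rayleigh G p) k with hc
  have hbdd : ∀ y ∈ {c | ∃ S : Set (Fin n → ℝ), IsCompact S ∧ 0 ∉ S ∧ (∀ x ∈ S, -x ∈ S) ∧
      (k : ℕ∞) ≤ γ S ∧ c = sSup (rayleigh G p '' S)}, 0 ≤ y := by
    rintro _ ⟨S, -, -, -, -, rfl⟩
    exact Real.sSup_nonneg (by rintro _ ⟨x, -, rfl⟩; exact rayleigh_nonneg G p x)
  rcases (show 0 ≤ c from Real.sInf_nonneg hbdd).eq_or_lt with h0 | h0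
  · have h1 := acyc_cone (show -(ε / 2) < ε / 2 by linarith)
      (hi _ _ _ (by linarith) (by linarith))
    have hsub : coneLevel (rayleigh G p) (-(ε / 2)) ⊆ coneLevel (rayleigh G p) (ε / 2) :=
      fun x hx => ⟨hx.1, hx.2.trans (by linarith)⟩
    obtain ⟨x, hx, -⟩ := ((acyc_subtype_iff hsub).2 h1).exists_joined ⟨fun _ => 1,
      Function.ne_iff.2 ⟨⟨0, hn⟩, by simp⟩, by
        rw [rayleigh_eq, num_const hp, zero_div]; linarith⟩
    linarith [rayleigh_nonneg G p x.1, hx.2]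
  obtain ⟨a, ha1, ha2⟩ := exists_between (max_lt h0 (show c - ε < c by linarith))
  have ha0 : 0 < a := (le_max_left _ _).trans_lt ha1
  have hal : c - ε < a := (le_max_right _ _).trans_lt ha1
  have hne : {c | ∃ S : Set (Fin n → ℝ), IsCompact S ∧ 0 ∉ S ∧ (∀ x ∈ S, -x ∈ S) ∧
      (k : ℕ∞) ≤ γ S ∧ c = sSup (rayleigh G p '' S)}.Nonempty := by
    by_contra h
    rw [not_nonempty_iff_eq_empty] at h
    rw [hc, minmax, h, Real.sInf_empty] at h0
    exact lt_irrefl _ h0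
  obtain ⟨_, ⟨S, hS, hS0, hSs, hk, rfl⟩, hlt⟩ :=
    exists_lt_of_csInf_lt hne (show c < c + ε by linarith)
  have hSX : S ⊆ X G p (c + ε) := fun x hx => (mem_X_iff hG hp).2 ⟨fun h => hS0 (h ▸ hx),
    (le_csSup (hS.bddAbove_image ((continuousOn_rayleigh hG hp).mono
      fun x hx h => hS0 (h ▸ hx))) (mem_image_of_mem _ hx)).trans_lt hlt⟩
  have hab : a < c + ε := by linarith
  obtain ⟨g, hg1, hg2, hg3⟩ := exists_odd_compression (isOpen_U (G := G) hp a)
    (isOpen_U hp (c + ε)) (fun x hx s => X_mono hab.le (hx s))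
    (mem_U_of_nonneg (fun _ => zero_le_one) (one_mem_X hG hp hn ha0))
    (fun h => zero_notMem_X hp _ (U_subset _ h)) contr contr_zero contr_one
    (contr_mem hG hp hn ha0) (contr_mem hG hp hn (ha0.trans hab))
    (by rw [U_union hp, U_union hp]; exact acyc_X hG hp hal hab hi) hS
    (by rw [U_union hp]; exact hSX) hSs
  rw [U_union hp] at hg2
  have hle : c ≤ sSup (rayleigh G p '' (g '' S)) := by
    refine csInf_le ⟨0, hbdd⟩ ⟨g '' S, hS.image_of_continuousOn hg1, ?_, ?_,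
      hk.trans (hγ _ _ ⟨g, hg1, fun x hx => mem_image_of_mem _ hx, hg3⟩), rfl⟩
    · rintro ⟨x, hx, h⟩
      exact zero_notMem_X hp _ (h ▸ hg2 hx)
    · rintro _ ⟨x, hx, rfl⟩
      exact ⟨-x, hSs x hx, hg3 x hx⟩
  have hle' : sSup (rayleigh G p '' (g '' S)) ≤ a := Real.sSup_le (by
    rintro _ ⟨_, ⟨x, hx, rfl⟩, rfl⟩
    exact ((mem_X_iff hG hp).1 (hg2 hx)).2.le) ha0.le
  linarith

lemma HasOddMap.trans {E₁ E₂ E₃ : Type} [TopologicalSpace E₁] [Neg E₁] [TopologicalSpace E₂]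
    [Neg E₂] [TopologicalSpace E₃] [Neg E₃] {S₁ : Set E₁} {S₂ : Set E₂} {S₃ : Set E₃}
    (h : HasOddMap S₁ S₂) (h' : HasOddMap S₂ S₃) : HasOddMap S₁ S₃ := by
  obtain ⟨f, f1, f2, f3⟩ := h
  obtain ⟨g, g1, g2, g3⟩ := h'
  exact ⟨g ∘ f, g1.comp f1 f2, fun x hx => g2 _ (f2 x hx), fun x hx => by
    simp only [Function.comp_apply, f3 x hx, g3 _ (f2 x hx)]⟩

lemma genus_mono (S S' : Set (Fin n → ℝ)) (h : HasOddMap S S') : genus S ≤ genus S' :=
  le_iInf₂ fun k hk => iInf₂_le k (h.trans hk)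

lemma coindex_mono (S S' : Set (Fin n → ℝ)) (h : HasOddMap S S') : coindex S ≤ coindex S' :=
  iSup₂_le fun k hk => le_iSup₂_of_le k (hk.trans h) le_rfl

end Pool.Agent.MP_76285e_an
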